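import Pool.Agent.Helper14.Tri.Main

namespace Pool.Agent.Results.MP_3093d2_nt.CounterexampleAt1471

/-- Negated form of Q1: `n = 1471` is a counterexample. Here `Nat.nth Nat.Prime (n - 1)` is the
`n`-th prime (the enumeration starts with index 0) and `Nat.primeCounting` is the function `π`. -/
theorem result : ∃ n : ℕ, n = 1471 ∧ 9 < n ∧
    ∀ k : ℕ, 1 ≤ k → (k : ℝ) < (Nat.nth Nat.Prime (n - 1) : ℝ) / 2 →
      ¬ ∃ m : ℕ, Nat.primeCounting (k * n) = m * (m + 1) / 2 := by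
  refine ⟨1471, rfl, by norm_num, ?_⟩
  rintro k hk1 hk2 ⟨m, hm⟩
  have h := Pool.Agent.Helper14.Tri.p1471
  have h1 : (1471 - 1 : ℕ) = 1470 := by norm_num
  rw [h1] at hk2
  have h2 : (2 * k : ℝ) < (Nat.nth Nat.Prime 1470 : ℝ) := by linarith
  have h3 : 2 * k < Nat.nth Nat.Prime 1470 := by exact_mod_cast h2
  exact Pool.Agent.Helper14.Tri.nontri k m hk1 (by omega) hm

end Pool.Agent.Results.MP_3093d2_nt.CounterexampleAt1471
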